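import Mathlib

/-!
Finite covers `F / R'R^m → G` of a finite group `G = F / R` (`F` free) and their lifting properties.
-/

set_option autoImplicit false

open Subgroup
open scoped commutatorElement

namespace Pool.Agent.Helper52IGP

section relker

variable {F : Type*} [Group F]

/-- The subgroup `R' R^m`. -/
def relKer (R : Subgroup F) (m : ℕ) : Subgroup F :=
  ⁅R, R⁆ ⊔ closure {x | ∃ r ∈ R, x = r ^ m}

theorem relKer_le (R : Subgroup F) (m : ℕ) : relKer R m ≤ R := by
  refine sup_le ?_ ?_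
  · rw [commutator_le]
    intro a ha b hb
    rw [commutatorElement_def]
    exact R.mul_mem (R.mul_mem (R.mul_mem ha hb) (R.inv_mem ha)) (R.inv_mem hb)
  · rw [closure_le]
    rintro x ⟨r, hr, rfl⟩
    exact R.pow_mem hr m

theorem relKer_le_of {R K : Subgroup F} {m : ℕ} (h1 : ∀ a ∈ R, ∀ b ∈ R, ⁅a, b⁆ ∈ K)
    (h2 : ∀ a ∈ R, a ^ m ∈ K) : relKer R m ≤ K := by
  refine sup_le (commutator_le.2 h1) ?_
  rw [closure_le]
  rintro x ⟨r, hr, rfl⟩
  exact h2 r hr

instance relKer_normal (R : Subgroup F) [R.Normal] (m : ℕ) : (relKer R m).Normal := by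
  have h : (closure {x | ∃ r ∈ R, x = r ^ m}).Normal := by
    have : closure {x | ∃ r ∈ R, x = r ^ m} = normalClosure {x | ∃ r ∈ R, x = r ^ m} := by
      apply le_antisymm
      · rw [closure_le]
        exact subset_normalClosure
      · rw [normalClosure, closure_le]
        intro x hx
        rw [Group.mem_conjugatesOfSet_iff] at hx
        obtain ⟨a, ⟨r, hr, rfl⟩, hc⟩ := hx
        obtain ⟨c, rfl⟩ := isConj_iff.1 hc
        apply Subgroup.subset_closure
        refine ⟨c * r * c⁻¹, Subgroup.Normal.conj_mem inferInstance r hr c, ?_⟩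
        rw [conj_pow]
    rw [this]
    infer_instance
  have h' : (⁅R, R⁆ : Subgroup F).Normal := inferInstance
  exact Subgroup.sup_normal _ _

theorem relKer_finite (R : Subgroup F) [R.Normal] [Group.FG F] [R.FiniteIndex] {m : ℕ}
    (hm : m ≠ 0) : Finite (F ⧸ relKer R m) := by
  have hfg : Group.FG R := inferInstance
  set N := relKer R m with hN
  have hNR : N ≤ R := relKer_le R m
  let Q := R ⧸ (N.subgroupOf R)
  have hcomm : ∀ a b : Q, a * b = b * a := by
    intro a b
    obtain ⟨a, rfl⟩ := QuotientGroup.mk_surjective a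
    obtain ⟨b, rfl⟩ := QuotientGroup.mk_surjective b
    rw [← QuotientGroup.mk_mul, ← QuotientGroup.mk_mul, QuotientGroup.eq, mem_subgroupOf]
    have h1 : ⁅(b : F)⁻¹, (a : F)⁻¹⁆ ∈ N := by
      apply Subgroup.mem_sup_left
      exact commutator_mem_commutator (R.inv_mem b.2) (R.inv_mem a.2)
    rw [commutatorElement_def, inv_inv, inv_inv] at h1
    push_cast
    rw [mul_inv_rev, ← mul_assoc]
    exact h1
  let _ : CommGroup Q := { (inferInstance : Group Q) with mul_comm := hcomm }
  have hQfg : Group.FG Q := QuotientGroup.fg _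
  have htor : IsMulTorsion Q := by
    intro a
    obtain ⟨a, rfl⟩ := QuotientGroup.mk_surjective a
    rw [isOfFinOrder_iff_pow_eq_one]
    refine ⟨m, Nat.pos_of_ne_zero hm, ?_⟩
    rw [← QuotientGroup.mk_pow, QuotientGroup.eq_one_iff, mem_subgroupOf]
    exact Subgroup.mem_sup_right (Subgroup.subset_closure ⟨a, a.2, by push_cast; rfl⟩)
  have hQ : Finite Q := CommGroup.finite_of_fg_isMulTorsion Q htor
  have h1 : (N.subgroupOf R).FiniteIndex := ⟨by
    have : Nat.card Q ≠ 0 := Nat.card_pos.ne'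
    exact this⟩
  have h2 : N.index ≠ 0 := by
    rw [← Subgroup.relIndex_mul_index hNR]
    exact mul_ne_zero h1.1 (FiniteIndex.index_ne_zero)
  exact Nat.finite_of_card_ne_zero h2

end relker

section pgroup

/-- In a finite `q`-group generated by `s`, `t` but not by `s` alone there is a homomorphism to
`ZMod q` with `s ↦ 0`, `t ↦ 1`. -/
theorem exists_hom_zmod {H : Type*} [Group H] [Finite H] {q : ℕ} [hq : Fact q.Prime]
    (hH : IsPGroup q H) {s t : H} (hst : closure {s, t} = ⊤) (hs : zpowers s ≠ ⊤) :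
    ∃ α : H →* Multiplicative (ZMod q), α s = 1 ∧ α t = Multiplicative.ofAdd 1 := by
  obtain ⟨M, hM, hsM⟩ := (eq_top_or_exists_le_coatom (zpowers s)).resolve_left hs
  have hnil : Group.IsNilpotent H := hH.isNilpotent
  have hn : M.Normal := Subgroup.NormalizerCondition.normal_of_coatom M
    Group.normalizerCondition_of_isNilpotent hM
  have hsM' : s ∈ M := hsM (mem_zpowers s)
  have htM : t ∉ M := by
    intro htM
    apply hM.1
    rw [eq_top_iff, ← hst, closure_le]
    rintro x (rfl | rfl)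
    · exact hsM'
    · exact htM
  obtain ⟨n, hn'⟩ := IsPGroup.iff_card.1 hH
  obtain ⟨k, hk⟩ := IsPGroup.iff_card.1 (hH.to_subgroup M)
  have hkn : k < n := by
    by_contra hcon
    push Not at hcon
    apply hM.1
    apply Subgroup.eq_top_of_le_card
    rw [hn', hk]
    exact Nat.pow_le_pow_right hq.out.pos hcon
  obtain ⟨K, hK, hMK⟩ := Sylow.exists_subgroup_card_pow_succ (p := q) (n := k) (G := H)
    (by rw [hn']; exact pow_dvd_pow q hkn) hk
  have hKtop : K = ⊤ := by
    rcases hM.le_iff.1 hMK with h | h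
    · exact h
    · exfalso
      rw [h, hk] at hK
      exact absurd hK (Nat.pow_lt_pow_right hq.out.one_lt (Nat.lt_succ_self k)).ne
  have hcard : Nat.card (H ⧸ M) = q := by
    have h1 := M.card_eq_card_quotient_mul_card_subgroup
    rw [hk] at h1
    have h2 : Nat.card H = q ^ (k + 1) := by
      rw [← hK, hKtop, Subgroup.card_top]
    rw [h2, pow_succ, mul_comm] at h1
    exact (Nat.eq_of_mul_eq_mul_right (pow_pos hq.out.pos k) h1).symm
  have hcard' : Nat.card (Multiplicative (ZMod q)) = q := by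
    rw [Nat.card_eq_fintype_card, Fintype.card_multiplicative, ZMod.card]
  let e : H ⧸ M ≃* Multiplicative (ZMod q) := mulEquivOfPrimeCardEq hcard hcard'
  let u : ZMod q := (e (QuotientGroup.mk t)).toAdd
  have hu : u ≠ 0 := by
    intro hu
    have h1 : e (QuotientGroup.mk t) = 1 := by
      rw [← ofAdd_toAdd (e (QuotientGroup.mk t))]
      change Multiplicative.ofAdd u = 1
      rw [hu]; rfl
    rw [EmbeddingLike.map_eq_one_iff, QuotientGroup.eq_one_iff] at h1
    exact htM h1
  let f : Multiplicative (ZMod q) →* Multiplicative (ZMod q) :=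
    AddMonoidHom.toMultiplicative (AddMonoidHom.mulLeft u⁻¹)
  refine ⟨f.comp (e.toMonoidHom.comp (QuotientGroup.mk' M)), ?_, ?_⟩
  · have h1 : (QuotientGroup.mk' M) s = 1 := by
      rw [QuotientGroup.mk'_apply, QuotientGroup.eq_one_iff]
      exact hsM'
    change f (e ((QuotientGroup.mk' M) s)) = 1
    rw [h1, map_one, map_one]
  · change Multiplicative.ofAdd (u⁻¹ * u) = _
    rw [inv_mul_cancel₀ hu]

/-- A nontrivial `t` in a finite `q`-group generated by `s`, `t` is detected by a complex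
character. -/
theorem exists_char {H : Type*} [Group H] [Finite H] {q : ℕ} [hq : Fact q.Prime]
    (hH : IsPGroup q H) {s t : H} (hst : closure {s, t} = ⊤) (ht : t ≠ 1) :
    ∃ χ : H →* ℂˣ, χ t ≠ 1 := by
  by_cases hs : zpowers s = ⊤
  · have hcyc : IsCyclic H := ⟨s, fun x => by
      have : x ∈ zpowers s := by rw [hs]; trivial
      exact this⟩
    let _ : CommGroup H := IsCyclic.commGroup
    exact CommGroup.exists_apply_ne_one_of_hasEnoughRootsOfUnity H ℂ ht
  · obtain ⟨α, -, hα⟩ := exists_hom_zmod hH hst hs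
    have h1 : (Multiplicative.ofAdd (1 : ZMod q)) ≠ 1 := by
      intro h
      exact one_ne_zero (Multiplicative.ofAdd.injective h)
    obtain ⟨ψ, hψ⟩ := CommGroup.exists_apply_ne_one_of_hasEnoughRootsOfUnity
      (Multiplicative (ZMod q)) ℂ h1
    exact ⟨ψ.comp α, by simpa [hα] using hψ⟩

end pgroup

section heis

/-- The Heisenberg group over a ring. -/
@[ext] structure Heis (R : Type*) where
  a : R
  b : R
  c : R

namespace Heis

variable {R : Type*} [CommRing R]

instance : Mul (Heis R) := ⟨fun x y => ⟨x.a + y.a, x.b + y.b, x.c + y.c + x.a * y.b⟩⟩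
instance : One (Heis R) := ⟨⟨0, 0, 0⟩⟩
instance : Inv (Heis R) := ⟨fun x => ⟨-x.a, -x.b, -x.c + x.a * x.b⟩⟩

@[simp] theorem mul_a (x y : Heis R) : (x * y).a = x.a + y.a := rfl
@[simp] theorem mul_b (x y : Heis R) : (x * y).b = x.b + y.b := rfl
@[simp] theorem mul_c (x y : Heis R) : (x * y).c = x.c + y.c + x.a * y.b := rfl
@[simp] theorem one_a : (1 : Heis R).a = 0 := rfl
@[simp] theorem one_b : (1 : Heis R).b = 0 := rfl
@[simp] theorem one_c : (1 : Heis R).c = 0 := rfl
@[simp] theorem inv_a (x : Heis R) : (x⁻¹).a = -x.a := rfl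
@[simp] theorem inv_b (x : Heis R) : (x⁻¹).b = -x.b := rfl
@[simp] theorem inv_c (x : Heis R) : (x⁻¹).c = -x.c + x.a * x.b := rfl

instance : Group (Heis R) := Group.ofLeftAxioms
  (fun x y z => by ext <;> simp <;> ring)
  (fun x => by ext <;> simp)
  (fun x => by ext <;> simp)

/-- First projection. -/
def pa : Heis R →* Multiplicative R where
  toFun x := Multiplicative.ofAdd x.a
  map_one' := rfl
  map_mul' _ _ := rfl

/-- Second projection. -/
def pb : Heis R →* Multiplicative R where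
  toFun x := Multiplicative.ofAdd x.b
  map_one' := rfl
  map_mul' _ _ := rfl

theorem comm_of_zero {x y : Heis R} (h1 : x.a = 0) (h2 : y.a = 0) : x * y = y * x := by
  ext <;> simp [h1, h2] <;> ring

theorem pow_zero_a {x : Heis R} (h1 : x.a = 0) (n : ℕ) :
    (x ^ n).a = 0 ∧ (x ^ n).b = n * x.b ∧ (x ^ n).c = n * x.c := by
  induction n with
  | zero => simp
  | succ n ih =>
    rw [pow_succ]
    obtain ⟨i1, i2, i3⟩ := ih
    refine ⟨by simp [i1, h1], ?_, ?_⟩
    · simp [i2]; ring
    · simp [i1, i3]; ring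

theorem zpow_zero_a {x : Heis R} (h1 : x.a = 0) (n : ℤ) :
    (x ^ n).a = 0 ∧ (x ^ n).b = n * x.b ∧ (x ^ n).c = n * x.c := by
  obtain ⟨k, rfl | rfl⟩ := n.eq_nat_or_neg
  · rw [zpow_natCast]
    simpa using pow_zero_a h1 k
  · rw [zpow_neg, zpow_natCast]
    obtain ⟨i1, i2, i3⟩ := pow_zero_a h1 k
    refine ⟨by simp [i1], by simp [i2], by simp [i1, i3]⟩

end Heis

end heis

section lifting

variable {F G : Type*} [Group F] [Group G]

theorem kills {H : Subgroup G} {B : Type*} [Group B] (φ : F →* G) (θ : H.comap φ →* B) {m : ℕ}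
    (h1 : ∀ a b : H.comap φ, φ a.1 = 1 → φ b.1 = 1 → θ a * θ b = θ b * θ a)
    (h2 : ∀ a : H.comap φ, φ a.1 = 1 → θ a ^ m = 1) (n : H.comap φ)
    (hn : n.1 ∈ relKer φ.ker m) : θ n = 1 := by
  have key : relKer φ.ker m ≤ θ.ker.map (H.comap φ).subtype := by
    have hmem : ∀ a ∈ φ.ker, a ∈ H.comap φ := by
      intro a ha
      rw [mem_comap, MonoidHom.mem_ker.1 ha]
      exact H.one_mem
    apply relKer_le_of
    · intro a ha b hb
      refine ⟨⁅(⟨a, hmem a ha⟩ : H.comap φ), ⟨b, hmem b hb⟩⁆, ?_, rfl⟩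
      change θ _ = 1
      rw [map_commutatorElement, commutatorElement_eq_one_iff_mul_comm]
      exact h1 _ _ (MonoidHom.mem_ker.1 ha) (MonoidHom.mem_ker.1 hb)
    · intro a ha
      refine ⟨(⟨a, hmem a ha⟩ : H.comap φ) ^ m, ?_, rfl⟩
      change θ _ = 1
      rw [map_pow]
      exact h2 _ (MonoidHom.mem_ker.1 ha)
  obtain ⟨n', hn', hnn⟩ := key hn
  have : n' = n := Subtype.ext hnn
  rw [← this]
  exact hn'

variable [IsFreeGroup F] [Finite G]

theorem cov_char (φ : F →* G) {q : ℕ} [hq : Fact q.Prime] {m N : ℕ} (hm : q ^ N ∣ m) {s t : F}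
    {l : ℤ} (hrel : s * t * s⁻¹ * (t ^ l)⁻¹ ∈ relKer φ.ker m) {a : ℕ}
    (hord : t ^ (q ^ a) ∈ relKer φ.ker m) (hH : IsPGroup q (closure {φ s, φ t}))
    (ht : φ t ≠ 1) : (q : ℤ) ^ N ∣ l - 1 := by
  set H := closure {φ s, φ t} with hHdef
  have hsH : φ s ∈ H := subset_closure (Or.inl rfl)
  have htH : φ t ∈ H := subset_closure (Or.inr rfl)
  have hgen : closure {(⟨φ s, hsH⟩ : H), ⟨φ t, htH⟩} = ⊤ := by
    apply Subgroup.map_injective H.subtype_injective
    rw [MonoidHom.map_closure, Set.image_pair, ← MonoidHom.range_eq_map, Subgroup.range_subtype]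
    rfl
  obtain ⟨χ, hχ⟩ := exists_char hH hgen (fun h => ht (congrArg Subtype.val h))
  let r : H.comap φ →* H := φ.subgroupComap H
  have hdiv : ∀ z : ℂˣ, ∃ w : ℂˣ, w ^ (q ^ N) = z := by
    intro z
    have hpos : 0 < q ^ N := pow_pos hq.out.pos N
    obtain ⟨w, hw⟩ := IsAlgClosed.exists_pow_nat_eq (z : ℂ) hpos
    have hw0 : w ≠ 0 := by
      rintro rfl
      rw [zero_pow hpos.ne'] at hw
      exact z.ne_zero hw.symm
    refine ⟨Units.mk0 w hw0, ?_⟩
    ext
    simpa using hw
  choose root hroot using hdiv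
  let θ : H.comap φ →* ℂˣ := IsFreeGroup.lift (fun g => root (χ (r (IsFreeGroup.of g))))
  have hθ : ∀ x, θ x ^ (q ^ N) = χ (r x) := by
    have : (powMonoidHom (q ^ N)).comp θ = χ.comp r := by
      apply IsFreeGroup.ext_hom
      intro g
      simp only [MonoidHom.comp_apply, powMonoidHom_apply]
      rw [IsFreeGroup.lift_of, hroot]
    intro x
    exact DFunLike.congr_fun this x
  have hk : ∀ n : H.comap φ, n.1 ∈ relKer φ.ker m → θ n = 1 := by
    apply kills φ θ
    · intro a b _ _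
      exact mul_comm _ _
    · intro x hx
      obtain ⟨c, hc⟩ := hm
      rw [hc, pow_mul, hθ]
      have : r x = 1 := Subtype.ext hx
      rw [this, map_one, one_pow]
  let s' : H.comap φ := ⟨s, hsH⟩
  let t' : H.comap φ := ⟨t, htH⟩
  have h1 : θ t' ^ (l - 1) = 1 := by
    have := hk (s' * t' * s'⁻¹ * (t' ^ l)⁻¹) hrel
    rw [map_mul, map_mul, map_mul, map_inv, map_inv, map_zpow, mul_comm (θ s') (θ t'),
      mul_inv_cancel_right] at this
    rw [zpow_sub_one]
    rw [mul_inv_eq_one] at this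
    rw [← this, mul_inv_cancel]
  have h2 : θ t' ^ (q ^ a) = 1 := by
    have := hk (t' ^ (q ^ a)) hord
    rwa [map_pow] at this
  have h3 : θ t' ^ (q ^ N) ≠ 1 := by
    rw [hθ]
    exact hχ
  obtain ⟨c, -, hc⟩ := (Nat.dvd_prime_pow hq.out).1 (orderOf_dvd_of_pow_eq_one h2)
  have hcN : N ≤ c := by
    by_contra hcon
    push Not at hcon
    apply h3
    apply orderOf_dvd_iff_pow_eq_one.1
    rw [hc]
    exact pow_dvd_pow q hcon.le
  have h4 : ((orderOf (θ t') : ℕ) : ℤ) ∣ l - 1 := orderOf_dvd_iff_zpow_eq_one.2 h1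
  rw [hc] at h4
  push_cast at h4
  exact (pow_dvd_pow (q : ℤ) hcN).trans h4

theorem cov_cyclic (φ : F →* G) {q : ℕ} [hq : Fact q.Prime] {m : ℕ} (hm : q ∣ m) {s t : F}
    {l : ℤ} (hrel : s * t * s⁻¹ * (t ^ l)⁻¹ ∈ relKer φ.ker m)
    (hH : IsPGroup q (closure {φ s, φ t})) : IsCyclic (closure {φ s, φ t}) := by
  set H := closure {φ s, φ t} with hHdef
  have hsH : φ s ∈ H := subset_closure (Or.inl rfl)
  have htH : φ t ∈ H := subset_closure (Or.inr rfl)
  have hgen : closure {(⟨φ s, hsH⟩ : H), ⟨φ t, htH⟩} = ⊤ := by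
    apply Subgroup.map_injective H.subtype_injective
    rw [MonoidHom.map_closure, Set.image_pair, ← MonoidHom.range_eq_map, Subgroup.range_subtype]
    rfl
  by_contra hcyc
  have hn1 : zpowers (⟨φ s, hsH⟩ : H) ≠ ⊤ := by
    intro h
    exact hcyc ⟨⟨φ s, hsH⟩, fun x => by
      have : x ∈ zpowers (⟨φ s, hsH⟩ : H) := by rw [h]; trivial
      exact this⟩
  have hn2 : zpowers (⟨φ t, htH⟩ : H) ≠ ⊤ := by
    intro h
    exact hcyc ⟨⟨φ t, htH⟩, fun x => by
      have : x ∈ zpowers (⟨φ t, htH⟩ : H) := by rw [h]; trivial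
      exact this⟩
  obtain ⟨β, hβs, hβt⟩ := exists_hom_zmod hH hgen hn1
  obtain ⟨α, hαt, hαs⟩ := exists_hom_zmod hH (by rw [Set.pair_comm]; exact hgen) hn2
  let r : H.comap φ →* H := φ.subgroupComap H
  let θ : H.comap φ →* Heis (ZMod q) := IsFreeGroup.lift (fun g =>
    ⟨(α (r (IsFreeGroup.of g))).toAdd, (β (r (IsFreeGroup.of g))).toAdd, 0⟩)
  have hθa : ∀ x, (θ x).a = (α (r x)).toAdd := by
    have : Heis.pa.comp θ = α.comp r := by
      apply IsFreeGroup.ext_hom
      intro g
      simp only [MonoidHom.comp_apply]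
      rw [IsFreeGroup.lift_of]
      rfl
    intro x
    exact congrArg Multiplicative.toAdd (DFunLike.congr_fun this x)
  have hθb : ∀ x, (θ x).b = (β (r x)).toAdd := by
    have : Heis.pb.comp θ = β.comp r := by
      apply IsFreeGroup.ext_hom
      intro g
      simp only [MonoidHom.comp_apply]
      rw [IsFreeGroup.lift_of]
      rfl
    intro x
    exact congrArg Multiplicative.toAdd (DFunLike.congr_fun this x)
  have hk : ∀ n : H.comap φ, n.1 ∈ relKer φ.ker m → θ n = 1 := by
    have hz : ∀ x : H.comap φ, φ x.1 = 1 → (θ x).a = 0 ∧ (θ x).b = 0 := by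
      intro x hx
      have : r x = 1 := Subtype.ext hx
      rw [hθa, hθb, this, α.map_one, β.map_one]
      exact ⟨rfl, rfl⟩
    apply kills φ θ
    · intro a b ha hb
      exact Heis.comm_of_zero (hz a ha).1 (hz b hb).1
    · intro x hx
      obtain ⟨i1, i2, i3⟩ := Heis.pow_zero_a (hz x hx).1 m
      have hm0 : (m : ZMod q) = 0 := (ZMod.natCast_eq_zero_iff m q).2 hm
      ext
      · rw [i1]; rfl
      · rw [i2, hm0, zero_mul]; rfl
      · rw [i3, hm0, zero_mul]; rfl
  let s' : H.comap φ := ⟨s, hsH⟩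
  let t' : H.comap φ := ⟨t, htH⟩
  have hsa : (θ s').a = 1 := by
    rw [hθa]
    exact congrArg Multiplicative.toAdd hαs
  have hta : (θ t').a = 0 := by
    rw [hθa]
    exact congrArg Multiplicative.toAdd hαt
  have hsb : (θ s').b = 0 := by
    rw [hθb]
    exact congrArg Multiplicative.toAdd hβs
  have htb : (θ t').b = 1 := by
    rw [hθb]
    exact congrArg Multiplicative.toAdd hβt
  have h1 : θ s' * θ t' = θ t' ^ l * θ s' := by
    have := hk (s' * t' * s'⁻¹ * (t' ^ l)⁻¹) hrel
    rw [map_mul, map_mul, map_mul, map_inv, map_inv, map_zpow, mul_inv_eq_one,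
      mul_inv_eq_iff_eq_mul] at this
    exact this
  obtain ⟨i1, i2, i3⟩ := Heis.zpow_zero_a hta l
  have hb := congrArg Heis.b h1
  have hc := congrArg Heis.c h1
  rw [Heis.mul_b, Heis.mul_b, i2, hsb, htb] at hb
  rw [Heis.mul_c, Heis.mul_c, i1, i3, hsa, htb] at hc
  have hl : (l : ZMod q) = 1 := by
    rw [zero_add, mul_one, add_zero] at hb
    exact hb.symm
  rw [hl] at hc
  have : (1 : ZMod q) = 0 := by
    linear_combination hc
  exact one_ne_zero this

end lifting

/-- Every finite group `G` has, for every `m ≠ 0`, a finite cover `π : E → G` such that any two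
elements `σ`, `τ` of `E` generating a `q`-group and satisfying `σ τ σ⁻¹ = τ ^ l` have an image
generating a cyclic group (if `q ∣ m`), and `q ^ N ∣ l - 1` unless `π τ = 1` (if `q ^ N ∣ m`). -/
theorem exists_cover (G : Type) [Group G] [Finite G] (m : ℕ) (hm : m ≠ 0) :
    ∃ (E : Type) (_ : Group E) (_ : Finite E) (π : E →* G), Function.Surjective π ∧
      ∀ (q : ℕ) [Fact q.Prime] (σ τ : E) (l : ℤ), σ * τ * σ⁻¹ = τ ^ l →
        IsPGroup q (closure {σ, τ}) →
        (q ∣ m → IsCyclic (closure {π σ, π τ})) ∧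
        (∀ N : ℕ, q ^ N ∣ m → π τ ≠ 1 → (q : ℤ) ^ N ∣ l - 1) := by
  let φ : FreeGroup G →* G := FreeGroup.lift id
  have hφ : Function.Surjective φ := fun g => ⟨FreeGroup.of g, FreeGroup.lift_apply_of⟩
  let N := relKer φ.ker m
  have hfg : Group.FG (FreeGroup G) := inferInstance
  have hfi : φ.ker.FiniteIndex := inferInstance
  have hfin : Finite (FreeGroup G ⧸ N) := relKer_finite φ.ker hm
  let π : FreeGroup G ⧸ N →* G := QuotientGroup.lift N φ (fun x hx => relKer_le _ _ hx)
  have hπ : ∀ x : FreeGroup G, π (QuotientGroup.mk x) = φ x := fun x => rfl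
  refine ⟨FreeGroup G ⧸ N, inferInstance, hfin, π, ?_, ?_⟩
  · intro g
    obtain ⟨x, hx⟩ := hφ g
    exact ⟨QuotientGroup.mk x, hx⟩
  · intro q hq σ τ l hrel hP
    obtain ⟨s, rfl⟩ := QuotientGroup.mk_surjective σ
    obtain ⟨t, rfl⟩ := QuotientGroup.mk_surjective τ
    have hrel' : s * t * s⁻¹ * (t ^ l)⁻¹ ∈ relKer φ.ker m := by
      rw [← mul_inv_eq_one] at hrel
      exact (QuotientGroup.eq_one_iff _).1 hrel
    have hmap : closure {φ s, φ t} =
        (closure {(QuotientGroup.mk s : FreeGroup G ⧸ N), QuotientGroup.mk t}).map π := by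
      rw [MonoidHom.map_closure, Set.image_pair]
      rfl
    have hH : IsPGroup q (closure {φ s, φ t}) := by
      rw [hmap]
      exact hP.map π
    obtain ⟨a, ha⟩ := hP ⟨QuotientGroup.mk t, subset_closure (Or.inr rfl)⟩
    have hord : t ^ (q ^ a) ∈ relKer φ.ker m := by
      have := congrArg Subtype.val ha
      exact (QuotientGroup.eq_one_iff _).1 this
    exact ⟨fun h => cov_cyclic φ h hrel' hH, fun K hK hne => cov_char φ hK hrel' hord hH hne⟩

end Pool.Agent.Helper52IGP
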