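import Mathlib

/-!
Tame inertia: a finite group `Γ` acting on a Dedekind domain `S`, a prime `P` of `S`.
-/

set_option autoImplicit false
set_option linter.unusedSectionVars false
set_option linter.unusedVariables false

open Pointwise

namespace Pool.Agent.Helper52IGP

variable {S : Type*} [CommRing S] {Γ : Type*} [Group Γ] [MulSemiringAction Γ S]
  {P : Ideal S}

theorem smul_mem_of_stab {σ : Γ} (h : σ ∈ MulAction.stabilizer Γ P) {x : S} (hx : x ∈ P) :
    σ • x ∈ P := by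
  have h' : σ • P = P := h
  have := Ideal.smul_mem_pointwise_smul σ x P hx
  rwa [h'] at this

theorem smul_mem_pow_of_stab {σ : Γ} (h : σ ∈ MulAction.stabilizer Γ P) {k : ℕ} {x : S}
    (hx : x ∈ P ^ k) : σ • x ∈ P ^ k := by
  have h' : σ • P = P := h
  have h1 : (MulSemiringAction.toRingHom Γ S σ) x ∈
      Ideal.map (MulSemiringAction.toRingHom Γ S σ) (P ^ k) := Ideal.mem_map_of_mem _ hx
  rw [Ideal.map_pow, ← Ideal.pointwise_smul_def, h'] at h1
  exact h1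

theorem inertia_stab {τ : Γ} (h : τ ∈ P.inertia Γ) : τ ∈ MulAction.stabilizer Γ P :=
  Ideal.inertia_le_stabilizer P h

/-- If `τ` acts trivially on `P / P²`, it acts trivially on `P ^ k / P ^ (k+1)`. -/
theorem triv_layer {τ : Γ} (h : τ ∈ P.inertia Γ) (h2 : ∀ y ∈ P, τ • y - y ∈ P ^ 2) (k : ℕ) :
    ∀ y ∈ P ^ (k + 1), τ • y - y ∈ P ^ (k + 2) := by
  induction k with
  | zero => intro y hy; exact h2 y (by simpa using hy)
  | succ k ih =>
    intro y hy
    rw [pow_succ] at hy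
    refine Submodule.mul_induction_on hy ?_ ?_
    · intro a ha b hb
      have e : τ • (a * b) - a * b = (τ • a - a) * (τ • b) + a * (τ • b - b) := by
        rw [smul_mul']; ring
      rw [e]
      apply Ideal.add_mem
      · rw [show k + 1 + 2 = (k + 2) + 1 by ring, pow_succ]
        exact Ideal.mul_mem_mul (ih a ha) (smul_mem_of_stab (inertia_stab h) hb)
      · rw [show k + 1 + 2 = (k + 1) + 2 by ring, pow_add]
        exact Ideal.mul_mem_mul ha (h2 b hb)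
    · intro x y hx hy
      have e : τ • (x + y) - (x + y) = (τ • x - x) + (τ • y - y) := by
        rw [smul_add]; ring
      rw [e]
      exact Ideal.add_mem _ hx hy

variable [IsDedekindDomain S] [hP : P.IsPrime]

/-- An element of order prime to the residue characteristic acting trivially on `P / P²` is
trivial. -/
theorem trivial_of_triv {τ : Γ} (h : τ ∈ P.inertia Γ) (h2 : ∀ y ∈ P, τ • y - y ∈ P ^ 2) {n : ℕ}
    (hn : τ ^ n = 1) (hnP : (n : S) ∉ P) (x : S) : τ • x = x := by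
  have key : ∀ k : ℕ, τ • x - x ∈ P ^ (k + 1) := by
    intro k
    induction k with
    | zero => simpa using h x
    | succ k ih =>
      set δ := τ • x - x with hδ
      have hj : ∀ j : ℕ, τ ^ j • x - x - j * δ ∈ P ^ (k + 2) := by
        intro j
        induction j with
        | zero => simp
        | succ j ihj =>
          have e : τ ^ (j + 1) • x - x - ((j + 1 : ℕ) : S) * δ =
              τ • (τ ^ j • x - x - j * δ) + j * (τ • δ - δ) := by
            rw [pow_succ', mul_smul, smul_sub, smul_sub, smul_mul']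
            have : τ • (j : S) = (j : S) := by
              exact map_natCast (MulSemiringAction.toRingHom Γ S τ) j
            rw [this]
            push_cast
            rw [hδ]
            ring
          rw [e]
          exact Ideal.add_mem _ (smul_mem_pow_of_stab (inertia_stab h) ihj)
            (Ideal.mul_mem_left _ _ (triv_layer h h2 k δ ih))
      have h3 := hj n
      rw [hn, one_smul, sub_self, zero_sub] at h3
      have h4 : (n : S) * δ ∈ P ^ (k + 2) := by simpa using h3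
      exact (Ideal.IsPrime.mul_mem_pow P h4).resolve_left hnP
  have : τ • x - x ∈ (⨅ i : ℕ, P ^ i) := by
    rw [Ideal.mem_iInf]
    intro i
    exact Ideal.pow_le_pow_right (Nat.le_succ i) (key i)
  have hbot : ⨅ i : ℕ, P ^ i = ⊥ := Ideal.iInf_pow_eq_bot_of_isDomain P hP.ne_top
  rw [hbot] at this
  exact sub_eq_zero.1 this

/-- `τ` acts on `P / P²` as multiplication by `u`. -/
def Rel (P : Ideal S) (τ : Γ) (u : S) : Prop := ∀ y ∈ P, τ • y - u * y ∈ P ^ 2

theorem exists_unif (hP0 : P ≠ ⊥) : ∃ ϖ ∈ P, ϖ ∉ P ^ 2 := by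
  obtain ⟨x, hx, hx'⟩ := Ideal.exists_mem_pow_notMem_pow_succ P hP0 hP.ne_top 1
  exact ⟨x, by simpa using hx, hx'⟩

theorem rel_of {τ : Γ} (hP0 : P ≠ ⊥) (h : τ ∈ P.inertia Γ) {ϖ u : S} (hϖ : ϖ ∈ P)
    (hϖ2 : ϖ ∉ P ^ 2) (hu : τ • ϖ - u * ϖ ∈ P ^ 2) : Rel P τ u := by
  intro y hy
  obtain ⟨d, e, he, rfl⟩ := Ideal.exists_mul_add_mem_pow_succ hP0 (i := 1) ϖ y (by simpa using hϖ)
    hϖ2 (by simpa using hy)
  have h1 : τ • (ϖ * d + e) - u * (ϖ * d + e) =
      (τ • ϖ - u * ϖ) * (τ • d) + (u * ϖ) * (τ • d - d) + (τ • e - u * e) := by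
    rw [smul_add, smul_mul']; ring
  rw [h1]
  refine Ideal.add_mem _ (Ideal.add_mem _ (Ideal.mul_mem_right _ _ hu) ?_) ?_
  · rw [pow_two]
    exact Ideal.mul_mem_mul (Ideal.mul_mem_left _ _ hϖ) (h d)
  · exact Ideal.sub_mem _ (smul_mem_pow_of_stab (inertia_stab h) he) (Ideal.mul_mem_left _ _ he)

theorem exists_rel {τ : Γ} (hP0 : P ≠ ⊥) (h : τ ∈ P.inertia Γ) : ∃ u : S, Rel P τ u := by
  obtain ⟨ϖ, hϖ, hϖ2⟩ := exists_unif hP0
  obtain ⟨d, e, he, hd⟩ := Ideal.exists_mul_add_mem_pow_succ hP0 (i := 1) ϖ (τ • ϖ)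
    (by simpa using hϖ) hϖ2 (by simpa using smul_mem_of_stab (inertia_stab h) hϖ)
  refine ⟨d, rel_of hP0 h hϖ hϖ2 ?_⟩
  rw [← hd]
  have : ϖ * d + e - d * ϖ = e := by ring
  rw [this]
  exact he

theorem rel_unique {τ : Γ} (hP0 : P ≠ ⊥) {u v : S} (hu : Rel P τ u) (hv : Rel P τ v) :
    u - v ∈ P := by
  obtain ⟨ϖ, hϖ, hϖ2⟩ := exists_unif hP0
  have h1 : ϖ * (u - v) ∈ P ^ 2 := by
    have : ϖ * (u - v) = (τ • ϖ - v * ϖ) - (τ • ϖ - u * ϖ) := by ring
    rw [this]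
    exact Ideal.sub_mem _ (hv ϖ hϖ) (hu ϖ hϖ)
  exact Ideal.mem_prime_of_mul_mem_pow hP0 (i := 1) hϖ2 h1

theorem rel_mul {τ τ' : Γ} (h : τ ∈ P.inertia Γ) (h' : τ' ∈ P.inertia Γ) {u v : S}
    (hu : Rel P τ u) (hv : Rel P τ' v) : Rel P (τ * τ') (u * v) := by
  intro y hy
  have h1 : (τ * τ') • y - u * v * y =
      τ • (τ' • y - v * y) + (τ • v - v) * (τ • y) + v * (τ • y - u * y) := by
    rw [mul_smul, smul_sub, smul_mul']; ring
  rw [h1]
  refine Ideal.add_mem _ (Ideal.add_mem _ (smul_mem_pow_of_stab (inertia_stab h) (hv y hy)) ?_)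
    (Ideal.mul_mem_left _ _ (hu y hy))
  rw [pow_two]
  exact Ideal.mul_mem_mul (h v) (smul_mem_of_stab (inertia_stab h) hy)

theorem rel_conj {σ τ : Γ} (hσ : σ ∈ MulAction.stabilizer Γ P) {p : ℕ}
    (hfrob : ∀ x : S, σ • x - x ^ p ∈ P) {u : S} (hu : Rel P τ u) :
    Rel P (σ * τ * σ⁻¹) (u ^ p) := by
  intro y hy
  have hy' : σ⁻¹ • y ∈ P := smul_mem_of_stab (inv_mem hσ) hy
  have h1 := smul_mem_pow_of_stab hσ (hu _ hy')
  rw [smul_sub, smul_mul', smul_inv_smul] at h1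
  have h2 : (σ * τ * σ⁻¹) • y - u ^ p * y =
      (σ • τ • σ⁻¹ • y - σ • u * y) + (σ • u - u ^ p) * y := by
    rw [mul_smul, mul_smul]; ring
  rw [h2]
  refine Ideal.add_mem _ h1 ?_
  rw [pow_two]
  exact Ideal.mul_mem_mul (hfrob u) hy

/-- The tame character. -/
noncomputable def theta (hP0 : P ≠ ⊥) : P.inertia Γ →* S ⧸ P where
  toFun τ := Ideal.Quotient.mk P (exists_rel hP0 τ.2).choose
  map_one' := by
    have h1 := (exists_rel hP0 (1 : P.inertia Γ).2).choose_spec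
    have h2 : Rel P ((1 : P.inertia Γ) : Γ) (1 : S) := by
      intro y _
      simp
    rw [← map_one (Ideal.Quotient.mk P), Ideal.Quotient.eq]
    exact rel_unique hP0 h1 h2
  map_mul' a b := by
    rw [← map_mul, Ideal.Quotient.eq]
    exact rel_unique hP0 (exists_rel hP0 (a * b).2).choose_spec
      (rel_mul a.2 b.2 (exists_rel hP0 a.2).choose_spec (exists_rel hP0 b.2).choose_spec)

theorem theta_eq (hP0 : P ≠ ⊥) {τ : P.inertia Γ} {u : S} (hu : Rel P (τ : Γ) u) :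
    theta hP0 τ = Ideal.Quotient.mk P u := by
  change Ideal.Quotient.mk P (exists_rel hP0 τ.2).choose = _
  rw [Ideal.Quotient.eq]
  exact rel_unique hP0 (exists_rel hP0 τ.2).choose_spec hu

theorem theta_inj [FaithfulSMul Γ S] (hP0 : P ≠ ⊥) {τ : P.inertia Γ} {n : ℕ} (hn : τ ^ n = 1)
    (hnP : (n : S) ∉ P) (h : theta hP0 τ = 1) : τ = 1 := by
  obtain ⟨u, hu⟩ := exists_rel hP0 τ.2
  rw [theta_eq hP0 hu, ← map_one (Ideal.Quotient.mk P), Ideal.Quotient.eq] at h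
  have h2 : ∀ y ∈ P, (τ : Γ) • y - y ∈ P ^ 2 := by
    intro y hy
    have e : (τ : Γ) • y - y = ((τ : Γ) • y - u * y) + (u - 1) * y := by ring
    rw [e]
    refine Ideal.add_mem _ (hu y hy) ?_
    rw [pow_two]
    exact Ideal.mul_mem_mul h hy
  have hn' : (τ : Γ) ^ n = 1 := by
    have := congrArg Subtype.val hn
    simpa using this
  apply Subtype.ext
  apply FaithfulSMul.eq_of_smul_eq_smul (α := S)
  intro x
  rw [trivial_of_triv τ.2 h2 hn' hnP x]
  simp

/-- A `q`-subgroup of inertia, `q` different from the residue characteristic, is cyclic. -/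
theorem inertia_cyclic [FaithfulSMul Γ S] [Finite Γ] (hP0 : P ≠ ⊥) {q : ℕ} [hq : Fact q.Prime]
    (hqP : (q : S) ∉ P) (Q : Subgroup (P.inertia Γ)) (hQ : IsPGroup q Q) : IsCyclic Q := by
  have hpow : ∀ k : ℕ, ((q ^ k : ℕ) : S) ∉ P := by
    intro k h
    rw [Nat.cast_pow] at h
    exact hqP (hP.mem_of_pow_mem k h)
  refine isCyclic_of_injective_ringHom (R := S ⧸ P) ((theta hP0).comp Q.subtype) ?_
  intro a b hab
  obtain ⟨k, hk⟩ := hQ (a * b⁻¹)
  have h1 : theta hP0 ((a * b⁻¹ : Q) : P.inertia Γ) = 1 := by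
    have hab' : theta hP0 (a : P.inertia Γ) = theta hP0 (b : P.inertia Γ) := hab
    rw [Subgroup.coe_mul, map_mul, hab', ← map_mul, ← Subgroup.coe_mul, mul_inv_cancel,
      Subgroup.coe_one, map_one]
  have h2 : ((a * b⁻¹ : Q) : P.inertia Γ) ^ (q ^ k) = 1 := by
    have := congrArg Subtype.val hk
    simpa using this
  have h3 := theta_inj hP0 h2 (hpow k) h1
  have h4 : a * b⁻¹ = 1 := Subtype.ext h3
  exact mul_inv_eq_one.1 h4

/-- The tame relation. -/
theorem tame_rel [FaithfulSMul Γ S] (hP0 : P ≠ ⊥) {q : ℕ} [hq : Fact q.Prime]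
    (hqP : (q : S) ∉ P) (Q : Subgroup Γ) (hQI : Q ≤ P.inertia Γ) (hQ : IsPGroup q Q) {p : ℕ}
    {σ τ : Γ} (hσ : σ ∈ MulAction.stabilizer Γ P) (hfrob : ∀ x : S, σ • x - x ^ p ∈ P)
    (hτ : τ ∈ Q) (hστ : σ * τ * σ⁻¹ ∈ Q) : σ * τ * σ⁻¹ = τ ^ p := by
  have hpow : ∀ k : ℕ, ((q ^ k : ℕ) : S) ∉ P := by
    intro k h
    rw [Nat.cast_pow] at h
    exact hqP (hP.mem_of_pow_mem k h)
  obtain ⟨u, hu⟩ := exists_rel hP0 (hQI hτ)
  let τ' : P.inertia Γ := ⟨τ, hQI hτ⟩
  let ρ' : P.inertia Γ := ⟨σ * τ * σ⁻¹, hQI hστ⟩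
  have h1 : theta hP0 ρ' = theta hP0 (τ' ^ p) := by
    have e1 : theta hP0 ρ' = Ideal.Quotient.mk P (u ^ p) :=
      theta_eq hP0 (τ := ρ') (rel_conj hσ hfrob hu)
    have e2 : theta hP0 (τ' ^ p) = (Ideal.Quotient.mk P u) ^ p := by
      rw [map_pow (theta hP0), theta_eq hP0 (τ := τ') hu]
    rw [e1, e2, map_pow]
  let x : Q := ⟨σ * τ * σ⁻¹, hστ⟩ * (⟨τ, hτ⟩ ^ p)⁻¹
  obtain ⟨k, hk⟩ := hQ x
  have h2 : (ρ' * (τ' ^ p)⁻¹) ^ (q ^ k) = 1 := by
    apply Subtype.ext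
    have := congrArg Subtype.val hk
    simpa [x, ρ', τ'] using this
  have h3 : theta hP0 (ρ' * (τ' ^ p)⁻¹) = 1 := by
    rw [map_mul, h1, ← map_mul, mul_inv_cancel, map_one]
  have h4 := theta_inj hP0 h2 (hpow k) h3
  have h5 := congrArg Subtype.val (mul_inv_eq_one.1 h4)
  simpa [ρ', τ'] using h5

end Pool.Agent.Helper52IGP
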