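import Mathlib
import Pool.Agent.Helper52_IGP.Cover
import Pool.Agent.Helper52_IGP.Tame

/-!
Decomposition groups over a rational prime and covers with the lifting property.
-/

set_option autoImplicit false
set_option linter.unusedSectionVars false
set_option linter.unusedVariables false

open Pointwise Subgroup MulAction

namespace Pool.Agent.Helper52IGP

/-- The property of the covers constructed in `exists_cover`. -/
def CoverProp {E G : Type*} [Group E] [Group G] (π : E →* G) (m : ℕ) : Prop :=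
  ∀ (q : ℕ) [Fact q.Prime] (σ τ : E) (l : ℤ), σ * τ * σ⁻¹ = τ ^ l →
    IsPGroup q (closure {σ, τ}) →
    (q ∣ m → IsCyclic (closure {π σ, π τ})) ∧
    (∀ N : ℕ, q ^ N ∣ m → π τ ≠ 1 → (q : ℤ) ^ N ∣ l - 1)

theorem isCyclic_map {G G' : Type*} [Group G] [Group G'] (f : G →* G') {H : Subgroup G}
    (h : IsCyclic H) : IsCyclic (H.map f) :=
  isCyclic_of_surjective (f.subgroupMap H) (f.subgroupMap_surjective H)

theorem map_pair {G G' : Type*} [Group G] [Group G'] (f : G →* G') (a b : G) :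
    (closure {a, b}).map f = closure {f a, f b} := by
  rw [MonoidHom.map_closure, Set.image_pair]

/-- Two surjections with the same kernel differ by an isomorphism. -/
theorem exists_iso {E G G' : Type*} [Group E] [Group G] [Group G'] (f : E →* G) (g : E →* G')
    (hf : Function.Surjective f) (hg : Function.Surjective g) (h : f.ker = g.ker) :
    ∃ ι : G ≃* G', ∀ x, ι (f x) = g x := by
  let e1 := QuotientGroup.quotientKerEquivOfSurjective f hf
  let e2 := QuotientGroup.quotientKerEquivOfSurjective g hg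
  refine ⟨(e1.symm.trans (QuotientGroup.quotientMulEquivOfEq h)).trans e2, ?_⟩
  intro x
  have h1 : e1.symm (f x) = QuotientGroup.mk x := by
    rw [MulEquiv.symm_apply_eq]
    rfl
  change e2 (QuotientGroup.quotientMulEquivOfEq h (e1.symm (f x))) = g x
  rw [h1]
  rfl

theorem CoverProp.comp_left {E G G' : Type*} [Group E] [Group G] [Group G']
    {π : E →* G} {m : ℕ} (h : CoverProp π m) (ι : G →* G') :
    CoverProp (ι.comp π) m := by
  intro q hq σ τ l h1 h2
  obtain ⟨h3, h4⟩ := h q σ τ l h1 h2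
  refine ⟨fun hqm => ?_, fun N hN hne => h4 N hN (fun h => hne (by simp [h]))⟩
  have := isCyclic_map ι (h3 hqm)
  rwa [map_pair] at this

theorem CoverProp.comp_right {E E' G : Type*} [Group E] [Group E'] [Group G]
    {π : E →* G} {m : ℕ} (h : CoverProp π m) (e : E' →* E) :
    CoverProp (π.comp e) m := by
  intro q hq σ τ l h1 h2
  have h3 : IsPGroup q (closure {e σ, e τ}) := by
    rw [← map_pair]
    exact h2.map e
  exact h q (e σ) (e τ) l (by rw [← map_mul, ← map_inv, ← map_mul, h1, map_zpow]) h3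

variable {S : Type*} [CommRing S] [IsDedekindDomain S] {Γ : Type*} [Group Γ] [Finite Γ]
  [MulSemiringAction Γ S] [FaithfulSMul Γ S] {P : Ideal S} [hP : P.IsPrime]

/-- A Frobenius element in the stabilizer. -/
theorem exists_frob [Algebra.IsInvariant ℤ S Γ] [Finite (S ⧸ P)] {p : ℕ}
    (hp : p.Prime) (hpP : (p : S) ∈ P) :
    ∃ σ ∈ stabilizer Γ P, ∀ x : S, σ • x - x ^ p ∈ P := by
  obtain ⟨σ, hσ⟩ := IsArithFrobAt.exists_of_isInvariant ℤ Γ P
  have hcard : Nat.card (ℤ ⧸ P.under ℤ) = p := by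
    have h1 : P.under ℤ = Ideal.span {(p : ℤ)} := by
      have h2 : (Ideal.span {(p : ℤ)}).IsMaximal := by
        have : Prime (p : ℤ) := Nat.prime_iff_prime_int.1 hp
        exact PrincipalIdealRing.isMaximal_of_irreducible this.irreducible
      refine (h2.eq_of_le (Ideal.IsPrime.ne_top inferInstance) ?_).symm
      rw [Ideal.span_le, Set.singleton_subset_iff]
      change (algebraMap ℤ S) (p : ℤ) ∈ P
      simpa using hpP
    rw [h1, Nat.card_congr (Int.quotientSpanNatEquivZMod p).toEquiv, Nat.card_zmod]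
  refine ⟨σ, hσ.mem_stabilizer, ?_⟩
  intro x
  have := hσ x
  rwa [hcard] at this

/-- A Frobenius element normalizing a given Sylow subgroup of inertia. -/
theorem exists_frob_norm [Algebra.IsInvariant ℤ S Γ] [Finite (S ⧸ P)] {p q : ℕ} [Fact q.Prime]
    (hp : p.Prime) (hpP : (p : S) ∈ P) (Q : Sylow q (P.inertia (stabilizer Γ P))) :
    ∃ σ : stabilizer Γ P, (∀ x : S, σ • x - x ^ p ∈ P) ∧
      σ ∈ normalizer ((Q : Subgroup (P.inertia (stabilizer Γ P))).map
        (P.inertia (stabilizer Γ P)).subtype : Subgroup (stabilizer Γ P)) := by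
  obtain ⟨σ₀, hσ₀, hf⟩ := exists_frob (Γ := Γ) (P := P) hp hpP
  have h1 : (⟨σ₀, hσ₀⟩ : stabilizer Γ P) ∈ (⊤ : Subgroup (stabilizer Γ P)) := trivial
  rw [← Sylow.normalizer_sup_eq_top Q, mem_sup_of_normal_right] at h1
  obtain ⟨n, hn, i, hi, hni⟩ := h1
  refine ⟨n, ?_, hn⟩
  intro x
  have h2 : n • x = σ₀ • (i⁻¹ • x) := by
    have : n = (⟨σ₀, hσ₀⟩ : stabilizer Γ P) * i⁻¹ := by rw [← hni, mul_inv_cancel_right]
    rw [this, mul_smul]
    rfl
  have h3 : σ₀ • (i⁻¹ • x) - x ^ p = σ₀ • (i⁻¹ • x - x) + (σ₀ • x - x ^ p) := by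
    rw [smul_sub]; ring
  rw [h2, h3]
  exact Ideal.add_mem _ (smul_mem_of_stab hσ₀ ((inv_mem hi) x)) (hf x)

theorem pow_cond {p q N b : ℕ} (hq : q.Prime) (hb : ¬ q ∣ b)
    (h : (q : ℤ) ^ N ∣ (p : ℤ) ^ b - 1) : q ^ N ∣ p ^ (q - 1) - 1 := by
  have hb0 : b ≠ 0 := by rintro rfl; exact hb (dvd_zero q)
  rcases Nat.eq_zero_or_pos N with rfl | hN
  · simp
  have : NeZero (q ^ N) := ⟨pow_ne_zero N hq.ne_zero⟩
  have h1 : ((p : ZMod (q ^ N))) ^ b = 1 := by
    have h2 : (((q ^ N : ℕ) : ℤ)) ∣ (p : ℤ) ^ b - 1 := by push_cast; exact h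
    rw [← ZMod.intCast_zmod_eq_zero_iff_dvd] at h2
    push_cast at h2
    exact sub_eq_zero.1 h2
  let u : (ZMod (q ^ N))ˣ := Units.ofPowEqOne (p : ZMod (q ^ N)) b h1 hb0
  have hu : u ^ b = 1 := Units.pow_ofPowEqOne h1 hb0
  have h3 : orderOf u ∣ b := orderOf_dvd_of_pow_eq_one hu
  have h4 : orderOf u ∣ q ^ (N - 1) * (q - 1) := by
    rw [← Nat.totient_prime_pow hq hN, ← ZMod.card_units_eq_totient]
    exact orderOf_dvd_card
  have h5 : (orderOf u).Coprime (q ^ (N - 1)) := by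
    apply Nat.Coprime.pow_right
    rw [Nat.coprime_comm, Nat.Prime.coprime_iff_not_dvd hq]
    exact fun h6 => hb (h6.trans h3)
  have h6 : orderOf u ∣ q - 1 := h5.dvd_of_dvd_mul_left h4
  have h7 : u ^ (q - 1) = 1 := orderOf_dvd_iff_pow_eq_one.1 h6
  have h8 : (p : ZMod (q ^ N)) ^ (q - 1) = 1 := by
    have := congrArg Units.val h7
    simpa [u] using this
  have h9 : ((p ^ (q - 1) : ℕ) : ZMod (q ^ N)) = ((1 : ℕ) : ZMod (q ^ N)) := by
    push_cast; exact h8
  rw [ZMod.natCast_eq_natCast_iff] at h9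
  have hp0 : 1 ≤ p ^ (q - 1) := by
    rcases Nat.eq_zero_or_pos p with rfl | hp
    · exfalso
      rw [Nat.cast_zero, zero_pow hb0] at h1
      have h10 : ((0 : ℕ) : ZMod (q ^ N)) = ((1 : ℕ) : ZMod (q ^ N)) := by
        push_cast; exact h1
      rw [ZMod.natCast_eq_natCast_iff] at h10
      have h11 := (Nat.modEq_iff_dvd' (Nat.zero_le 1)).1 h10
      have h12 : q ^ N = 1 := Nat.dvd_one.1 (by simpa using h11)
      exact absurd h12 (Nat.one_lt_pow hN.ne' hq.one_lt).ne'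
    · exact Nat.one_le_pow _ _ hp
  exact (Nat.modEq_iff_dvd' hp0).1 h9.symm

theorem conj_iter {G : Type*} [Group G] {s t : G} {p : ℕ} (h : s * t * s⁻¹ = t ^ p) (b : ℕ) :
    s ^ b * t * (s ^ b)⁻¹ = t ^ (p ^ b) := by
  induction b with
  | zero => simp
  | succ b ih =>
    have h1 : s ^ (b + 1) * t * (s ^ (b + 1))⁻¹ = s * (s ^ b * t * (s ^ b)⁻¹) * s⁻¹ := by
      rw [pow_succ']; group
    rw [h1, ih, ← conj_pow, h, ← pow_mul, pow_succ']

theorem closure_pair_le {G : Type*} [Group G] {a b : G} {H : Subgroup G} (ha : a ∈ H) (hb : b ∈ H) :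
    closure {a, b} ≤ H := by
  rw [closure_le]
  rintro x (rfl | rfl)
  · exact ha
  · exact hb

theorem isPGroup_zpowers {G : Type*} [Group G] {s : G} {q a : ℕ} (h : s ^ (q ^ a) = 1) :
    IsPGroup q (zpowers s) := by
  rintro ⟨x, k, rfl⟩
  refine ⟨a, Subtype.ext ?_⟩
  change (s ^ k) ^ (q ^ a) = 1
  rw [← zpow_natCast, zpow_comm, zpow_natCast, h, one_zpow]

theorem ramified_cond {G : Type*} [Group G] [Algebra.IsInvariant ℤ S Γ] [Finite (S ⧸ P)]
    (hP0 : P ≠ ⊥) {p q : ℕ} [hq : Fact q.Prime] (hp : p.Prime) (hpP : (p : S) ∈ P)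
    (hqP : (q : S) ∉ P) {π : Γ →* G} {m : ℕ} (hπ : CoverProp π m) {N : ℕ} (hN : q ^ N ∣ m)
    (Q : Sylow q (P.inertia (stabilizer Γ P)))
    (hne : ∃ τ : P.inertia (stabilizer Γ P), τ ∈ Q ∧ π ((τ : stabilizer Γ P) : Γ) ≠ 1) :
    q ^ N ∣ p ^ (q - 1) - 1 := by
  have hcyc := inertia_cyclic (Γ := stabilizer Γ P) hP0 hqP Q.1 Q.2
  obtain ⟨⟨τ, hτQ⟩, hτ⟩ := hcyc.exists_generator
  have hπτ : π ((τ : stabilizer Γ P) : Γ) ≠ 1 := by
    obtain ⟨τ', hτ', hne'⟩ := hne
    intro h1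
    obtain ⟨k, hk⟩ := hτ ⟨τ', hτ'⟩
    have hk' : τ ^ k = τ' := congrArg Subtype.val hk
    apply hne'
    rw [← hk']
    push_cast
    rw [map_zpow, h1, one_zpow]
  obtain ⟨σ, hσf, hσn⟩ := exists_frob_norm (Γ := Γ) (P := P) hp hpP Q
  set QD : Subgroup (stabilizer Γ P) := (Q : Subgroup (P.inertia (stabilizer Γ P))).map
        (P.inertia (stabilizer Γ P)).subtype with hQD
  have hQDp : IsPGroup q QD := Q.2.map _
  have hQDI : QD ≤ P.inertia (stabilizer Γ P) := by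
    rintro _ ⟨x, _, rfl⟩
    exact x.2
  have hτD : (τ : stabilizer Γ P) ∈ QD := ⟨τ, hτQ, rfl⟩
  have hστD : σ * (τ : stabilizer Γ P) * σ⁻¹ ∈ QD := (mem_normalizer_iff.1 hσn _).1 hτD
  have hσst : σ ∈ stabilizer (stabilizer Γ P) P := σ.2
  have hrel : σ * (τ : stabilizer Γ P) * σ⁻¹ = (τ : stabilizer Γ P) ^ p :=
    tame_rel hP0 hqP QD hQDI hQDp hσst hσf hτD hστD
  obtain ⟨a, b, hb, hab⟩ := Nat.exists_eq_pow_mul_and_not_dvd (orderOf_pos σ).ne' q hq.out.ne_one
  have hrel' := conj_iter hrel b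
  have hsb : (σ ^ b) ^ (q ^ a) = 1 := by
    rw [← pow_mul, mul_comm, ← hab, pow_orderOf_eq_one]
  have hpg : IsPGroup q (closure {σ ^ b, (τ : stabilizer Γ P)}) := by
    have h1 : IsPGroup q (zpowers (σ ^ b) ⊔ QD : Subgroup (stabilizer Γ P)) := by
      apply IsPGroup.to_sup_of_normal_right' (isPGroup_zpowers hsb) hQDp
      rw [zpowers_le]
      exact pow_mem hσn b
    exact h1.to_le (closure_pair_le (mem_sup_left (mem_zpowers _)) (mem_sup_right hτD))
  have hpg' : IsPGroup q (closure {((σ ^ b : stabilizer Γ P) : Γ), ((τ : stabilizer Γ P) : Γ)}) := by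
    have := hpg.map (stabilizer Γ P).subtype
    rwa [map_pair] at this
  have hrelΓ : ((σ ^ b : stabilizer Γ P) : Γ) * ((τ : stabilizer Γ P) : Γ) *
      ((σ ^ b : stabilizer Γ P) : Γ)⁻¹ = ((τ : stabilizer Γ P) : Γ) ^ ((p ^ b : ℕ) : ℤ) := by
    rw [zpow_natCast]
    exact congrArg Subtype.val hrel'
  have h2 := (hπ q _ _ _ hrelΓ hpg').2 N hN hπτ
  exact pow_cond hq.out hb (by simpa using h2)

/-- Every `q`-subgroup of the decomposition group has cyclic image. -/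
theorem decomp_cyclic {G : Type*} [Group G] [Algebra.IsInvariant ℤ S Γ] [Finite (S ⧸ P)]
    (hP0 : P ≠ ⊥) {p q : ℕ} [hq : Fact q.Prime] (hp : p.Prime) (hpP : (p : S) ∈ P)
    (hqP : (q : S) ∉ P) {π : Γ →* G} {m : ℕ} (hπ : CoverProp π m) (hm : q ∣ m)
    (R : Subgroup Γ) (hR : R ≤ stabilizer Γ P) (hRq : IsPGroup q R) : IsCyclic (R.map π) := by
  have hmax : P.IsMaximal := Ideal.Quotient.maximal_of_isField _ (Finite.isField_of_domain (S ⧸ P))
  have hint : Algebra.IsIntegral ℤ S := Algebra.IsInvariant.isIntegral ℤ S Γ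
  have hmax' : (P.under ℤ).IsMaximal := Ideal.IsMaximal.under ℤ P
  let _ : Field (S ⧸ P) := Ideal.Quotient.field P
  let _ : Field (ℤ ⧸ P.under ℤ) := Ideal.Quotient.field (P.under ℤ)
  have hfinZ : Finite (ℤ ⧸ P.under ℤ) :=
    Finite.of_injective _ (Ideal.algebraMap_quotient_injective (I := P) (R := ℤ))
  let ψ := Ideal.Quotient.stabilizerHom P (P.under ℤ) Γ
  -- the restriction of `ψ` to `R`
  let j : R →* stabilizer Γ P := Subgroup.inclusion hR
  let ρ := ψ.comp j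
  have hcyc1 : IsCyclic ρ.range := inferInstance
  obtain ⟨⟨g, ⟨σ, hσ⟩⟩, hg⟩ := hcyc1.exists_generator
  -- the inertia part
  let T : Subgroup (P.inertia (stabilizer Γ P)) :=
    (R.subgroupOf (stabilizer Γ P)).subgroupOf (P.inertia (stabilizer Γ P))
  have hT : IsPGroup q T := by
    have h1 : IsPGroup q (R.subgroupOf (stabilizer Γ P)) := by
      apply hRq.comap_of_injective (stabilizer Γ P).subtype Subtype.val_injective
    exact h1.comap_of_injective _ Subtype.val_injective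
  have hcyc2 := inertia_cyclic (Γ := stabilizer Γ P) hP0 hqP T hT
  obtain ⟨⟨τ, hτT⟩, hτ⟩ := hcyc2.exists_generator
  have hτR : ((τ : stabilizer Γ P) : Γ) ∈ R := hτT
  have hinert : ∀ x : R, ρ x = 1 → (x : Γ) ∈ zpowers ((τ : stabilizer Γ P) : Γ) := by
    intro x hx
    have h1 : j x ∈ P.inertia (stabilizer Γ P) := by
      rw [← Ideal.Quotient.ker_stabilizerHom P (P.under ℤ) Γ]
      exact hx
    have h2 : (⟨j x, h1⟩ : P.inertia (stabilizer Γ P)) ∈ T := x.2
    obtain ⟨k, hk⟩ := hτ ⟨⟨j x, h1⟩, h2⟩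
    refine ⟨k, ?_⟩
    have h3 := congrArg (fun y : T => (((y : P.inertia (stabilizer Γ P)) : stabilizer Γ P) : Γ)) hk
    have h4 : ((j x : stabilizer Γ P) : Γ) = x := rfl
    rw [← h4]
    simpa using h3
  have hgen : closure {(σ : Γ), ((τ : stabilizer Γ P) : Γ)} = R := by
    apply le_antisymm (closure_pair_le σ.2 hτR)
    intro x hx
    obtain ⟨k, hk⟩ := hg ⟨ρ ⟨x, hx⟩, ⟨x, hx⟩, rfl⟩
    have hk' : g ^ k = ρ ⟨x, hx⟩ := congrArg Subtype.val hk
    have h1 : ρ (⟨x, hx⟩ * (σ ^ k)⁻¹) = 1 := by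
      rw [map_mul, map_inv, map_zpow, hσ, hk', mul_inv_cancel]
    have h2 := hinert _ h1
    have h3 : x * ((σ : Γ) ^ k)⁻¹ ∈ closure {(σ : Γ), ((τ : stabilizer Γ P) : Γ)} := by
      have h4 : zpowers ((τ : stabilizer Γ P) : Γ) ≤
          closure {(σ : Γ), ((τ : stabilizer Γ P) : Γ)} := by
        rw [zpowers_le]
        exact subset_closure (Or.inr rfl)
      exact h4 (by simpa using h2)
    have h5 : (σ : Γ) ^ k ∈ closure {(σ : Γ), ((τ : stabilizer Γ P) : Γ)} := by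
      have h6 : (σ : Γ) ∈ closure {(σ : Γ), ((τ : stabilizer Γ P) : Γ)} :=
        Subgroup.subset_closure (Or.inl rfl)
      exact Subgroup.zpow_mem _ h6 k
    have := mul_mem h3 h5
    rwa [inv_mul_cancel_right] at this
  obtain ⟨l, hl⟩ : ∃ l : ℤ, ((τ : stabilizer Γ P) : Γ) ^ l =
      (σ : Γ) * ((τ : stabilizer Γ P) : Γ) * (σ : Γ)⁻¹ := by
    have h1 : ρ (σ * ⟨((τ : stabilizer Γ P) : Γ), hτR⟩ * σ⁻¹) = 1 := by
      have h2 : ρ ⟨((τ : stabilizer Γ P) : Γ), hτR⟩ = 1 := by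
        have h3 : (τ : stabilizer Γ P) ∈ ψ.ker := by
          rw [Ideal.Quotient.ker_stabilizerHom P (P.under ℤ) Γ]
          exact τ.2
        exact h3
      rw [map_mul, map_mul, h2, mul_one, map_inv, mul_inv_cancel]
    exact hinert _ h1
  have h1 := (hπ q (σ : Γ) ((τ : stabilizer Γ P) : Γ) l hl.symm (by rw [hgen]; exact hRq)).1 hm
  rw [← map_pair, hgen] at h1
  exact h1

end Pool.Agent.Helper52IGP
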