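import Mathlib
import Pool.Agent.Helper52_IGP.Decomp

/-!
Towers `M / L / ℚ` of number fields: restriction of decomposition and inertia groups.
-/

set_option autoImplicit false
set_option linter.unusedSectionVars false
set_option linter.unusedVariables false

open Pointwise Subgroup MulAction NumberField

namespace Pool.Agent.Helper52IGP

variable (L M : Type) [Field L] [Field M] [NumberField L] [NumberField M] [Algebra L M]
  [IsGalois ℚ L] [IsGalois ℚ M]

/-- Restriction. -/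
noncomputable def res : Gal(M/ℚ) →* Gal(L/ℚ) :=
  IsGaloisGroup.restrictHom Gal(M/ℚ) Gal(L/ℚ) ℤ (𝓞 L) (𝓞 M)

/-- The subgroup fixing `L`. -/
def fixL : Subgroup Gal(M/ℚ) := fixingSubgroup Gal(M/ℚ) (Set.range (algebraMap L M))

instance fixL_galois : IsGaloisGroup (fixL L M) L M :=
  IsGaloisGroup.of_isScalarTower Gal(M/ℚ) ℚ M L

instance fixL_galois_int : IsGaloisGroup (fixL L M) (𝓞 L) (𝓞 M) :=
  IsGaloisGroup.of_isFractionRing (fixL L M) (𝓞 L) (𝓞 M) L M

instance : FaithfulSMul Gal(M/ℚ) (𝓞 M) := IsGaloisGroup.faithful ℤ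

theorem res_smul (g : Gal(M/ℚ)) (x : 𝓞 L) :
    algebraMap (𝓞 L) (𝓞 M) (res L M g • x) = g • algebraMap (𝓞 L) (𝓞 M) x :=
  IsGaloisGroup.algebraMap_restrictHom_smul Gal(M/ℚ) Gal(L/ℚ) ℤ (𝓞 L) (𝓞 M) g x

theorem res_surj : Function.Surjective (res L M) :=
  IsGaloisGroup.restrictHom_surjective Gal(M/ℚ) Gal(L/ℚ) ℤ (𝓞 L) (𝓞 M)

theorem res_ker : (res L M).ker = fixL L M := by
  ext g
  rw [MonoidHom.mem_ker, fixL, mem_fixingSubgroup_iff]
  constructor
  · rintro h _ ⟨y, rfl⟩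
    obtain ⟨a, b, -, rfl⟩ := IsFractionRing.div_surjective (𝓞 L) y
    have key : ∀ x : 𝓞 L, g • (algebraMap L M (algebraMap (𝓞 L) L x)) =
        algebraMap L M (algebraMap (𝓞 L) L x) := by
      intro x
      have h1 := res_smul L M g x
      rw [h, one_smul] at h1
      have h2 := congrArg (algebraMap (𝓞 M) M) h1
      rw [algebraMap.smul'] at h2
      rw [← IsScalarTower.algebraMap_apply, IsScalarTower.algebraMap_apply (𝓞 L) (𝓞 M) M]
      exact h2.symm
    rw [map_div₀, smul_div₀', key, key]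
  · intro h
    have hf : FaithfulSMul Gal(L/ℚ) (𝓞 L) := IsGaloisGroup.faithful ℤ
    apply hf.eq_of_smul_eq_smul
    intro x
    rw [one_smul]
    apply FaithfulSMul.algebraMap_injective (𝓞 L) (𝓞 M)
    rw [res_smul]
    apply FaithfulSMul.algebraMap_injective (𝓞 M) M
    rw [algebraMap.smul', ← IsScalarTower.algebraMap_apply,
      IsScalarTower.algebraMap_apply (𝓞 L) L M]
    exact h _ ⟨_, rfl⟩

/-- Every element of the decomposition group downstairs lifts. -/
theorem decomp_lift (P : Ideal (𝓞 M)) [P.IsPrime] (s : Gal(L/ℚ))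
    (hs : s ∈ stabilizer Gal(L/ℚ) (P.under (𝓞 L))) :
    ∃ g ∈ stabilizer Gal(M/ℚ) P, res L M g = s := by
  obtain ⟨g, rfl⟩ := res_surj L M s
  have h1 : res L M g • P.under (𝓞 L) = P.under (𝓞 L) := hs
  have h2 : res L M g • P.under (𝓞 L) = (g • P).under (𝓞 L) :=
    IsGaloisGroup.restrictHom_smul_under Gal(M/ℚ) Gal(L/ℚ) ℤ (𝓞 L) (𝓞 M) g P
  rw [h1] at h2
  obtain ⟨⟨δ, hδ⟩, hδP⟩ := Algebra.IsInvariant.exists_smul_of_under_eq (𝓞 L) (𝓞 M) (fixL L M)
    (g • P) P h2.symm
  have hδP' : P = δ • (g • P) := hδP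
  refine ⟨δ * g, ?_, ?_⟩
  · rw [mem_stabilizer_iff, mul_smul, ← hδP']
  · rw [map_mul]
    have : res L M δ = 1 := by
      rw [← MonoidHom.mem_ker, res_ker]
      exact hδ
    rw [this, one_mul]

/-- If `q` divides the ramification index of the prime below, some element of a Sylow
`q`-subgroup of inertia restricts nontrivially. -/
theorem exists_res_ne_one (P : Ideal (𝓞 M)) [P.IsPrime] (hP0 : P ≠ ⊥) {q : ℕ} [hq : Fact q.Prime]
    (hqe : q ∣ (P.under (𝓞 L)).ramificationIdx ℤ)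
    (Q : Sylow q (P.inertia (stabilizer Gal(M/ℚ) P))) :
    ∃ τ : P.inertia (stabilizer Gal(M/ℚ) P), τ ∈ Q ∧
      res L M ((τ : stabilizer Gal(M/ℚ) P) : Gal(M/ℚ)) ≠ 1 := by
  by_contra hcon
  push Not at hcon
  have hmax : P.IsMaximal := Ideal.IsPrime.isMaximal inferInstance hP0
  have hfin : Finite (𝓞 M ⧸ P) := Ring.HasFiniteQuotients.finiteQuotient hP0
  have hmaxL : (P.under (𝓞 L)).IsMaximal := Ideal.IsMaximal.under (𝓞 L) P
  have hmaxZ : (P.under ℤ).IsMaximal := Ideal.IsMaximal.under ℤ P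
  have hfinL : Finite (𝓞 L ⧸ P.under (𝓞 L)) :=
    Finite.of_injective _ (Ideal.algebraMap_quotient_injective (I := P) (R := 𝓞 L))
  have hfinZ : Finite (ℤ ⧸ P.under ℤ) :=
    Finite.of_injective _ (Ideal.algebraMap_quotient_injective (I := P) (R := ℤ))
  have c1 : Nat.card (P.inertia Gal(M/ℚ)) = P.ramificationIdx ℤ := by
    rw [Ideal.card_inertia_eq_ramificationIdxIn (P.under ℤ) P,
      Ideal.ramificationIdxIn_eq_ramificationIdx (P.under ℤ) P Gal(M/ℚ)]
  have c2 : Nat.card (P.inertia (fixL L M)) = P.ramificationIdx (𝓞 L) := by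
    rw [Ideal.card_inertia_eq_ramificationIdxIn (P.under (𝓞 L)) P,
      Ideal.ramificationIdxIn_eq_ramificationIdx (P.under (𝓞 L)) P (fixL L M)]
  have c3 : P.ramificationIdx ℤ = (P.under (𝓞 L)).ramificationIdx ℤ * P.ramificationIdx (𝓞 L) :=
    Ideal.ramificationIdx_tower (P.under (𝓞 L)) P
  have c4 : Nat.card (P.inertia (stabilizer Gal(M/ℚ) P)) = Nat.card (P.inertia Gal(M/ℚ)) := by
    have h : P.inertia (stabilizer Gal(M/ℚ) P) =
        (P.inertia Gal(M/ℚ)).subgroupOf (stabilizer Gal(M/ℚ) P) := by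
      ext x; exact Iff.rfl
    rw [h]
    exact Nat.card_congr
      (Subgroup.subgroupOfEquivOfLe (Ideal.inertia_le_stabilizer (M := Gal(M/ℚ)) P)).toEquiv
  have c5 := Q.card_eq_multiplicity
  -- embed `Q` in the inertia group of `fixL`
  have hmem : ∀ τ : Q, (((τ : P.inertia (stabilizer Gal(M/ℚ) P)) : stabilizer Gal(M/ℚ) P) :
      Gal(M/ℚ)) ∈ fixL L M := by
    intro τ
    rw [← res_ker, MonoidHom.mem_ker]
    exact hcon τ τ.2
  let f : Q →* P.inertia (fixL L M) :=
    { toFun := fun τ => ⟨⟨_, hmem τ⟩, fun x => (τ : P.inertia (stabilizer Gal(M/ℚ) P)).2 x⟩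
      map_one' := rfl
      map_mul' := fun _ _ => rfl }
  have hf : Function.Injective f := by
    intro a b hab
    have h1 := congrArg (fun y : P.inertia (fixL L M) => ((y : fixL L M) : Gal(M/ℚ))) hab
    exact Subtype.ext (Subtype.ext (Subtype.ext h1))
  have hdvd : Nat.card Q ∣ Nat.card (P.inertia (fixL L M)) := Subgroup.card_dvd_of_injective f hf
  have h0 : P.ramificationIdx (𝓞 L) ≠ 0 := by
    rw [← c2]; exact Nat.card_pos.ne'
  have h0' : (P.under (𝓞 L)).ramificationIdx ℤ ≠ 0 := by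
    intro h
    rw [h, zero_mul, ← c1] at c3
    exact Nat.card_pos.ne' c3
  rw [c2] at hdvd
  have h1 : q ^ (Nat.card (P.inertia (stabilizer Gal(M/ℚ) P))).factorization q ∣
      P.ramificationIdx (𝓞 L) := by
    rw [← c5]; exact hdvd
  rw [c4, c1, c3, Nat.factorization_mul h0' h0] at h1
  have h2 := (hq.out.pow_dvd_iff_le_factorization h0).1 h1
  have h3 : 0 < ((P.under (𝓞 L)).ramificationIdx ℤ).factorization q :=
    hq.out.factorization_pos_of_dvd h0' hqe
  simp only [Finsupp.add_apply] at h2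
  omega

end Pool.Agent.Helper52IGP
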