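import Mathlib
import Pool.Agent.Helper52_IGP.Tower

/-!
Local conditions for free in the inverse Galois problem over `ℚ`.
-/

set_option autoImplicit false
set_option linter.unusedSectionVars false
set_option linter.unusedVariables false

open NumberField Pointwise Subgroup MulAction

namespace Pool.Agent.Helper52IGP

theorem realize_sub (M : Type) [Field M] [NumberField M] [IsGalois ℚ M] (N : Subgroup Gal(M/ℚ))
    [N.Normal] : ∃ (L : Type) (_ : Field L) (_ : NumberField L) (_ : Algebra L M),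
      IsGalois ℚ L ∧ fixL L M = N := by
  refine ⟨IntermediateField.fixedField N, inferInstance, inferInstance, inferInstance, ?_, ?_⟩
  · exact IsGalois.of_fixedField_normal_subgroup N
  · have h := IntermediateField.fixingSubgroup_fixedField N
    ext g
    have key : g ∈ fixL (IntermediateField.fixedField N) M ↔
        g ∈ (IntermediateField.fixedField N).fixingSubgroup := by
      rw [fixL, mem_fixingSubgroup_iff, IntermediateField.mem_fixingSubgroup_iff]
      constructor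
      · intro h2 x hx
        exact h2 x ⟨⟨x, hx⟩, rfl⟩
      · rintro h2 _ ⟨⟨x, hx⟩, rfl⟩
        exact h2 x hx
    rw [key, h]

section tower

variable (L M : Type) [Field L] [Field M] [NumberField L] [NumberField M] [Algebra L M]
  [IsGalois ℚ L] [IsGalois ℚ M]

theorem totallyReal_of_cover {m : ℕ} (hπ : CoverProp (res L M) m) (hm : 2 ^ 2 ∣ m) :
    IsTotallyReal L := by
  refine ⟨fun v => ?_⟩
  rw [InfinitePlace.isReal_iff, ComplexEmbedding.isReal_iff]
  set φ₀ := v.embedding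
  let φ : M →+* ℂ := ComplexEmbedding.lift M φ₀
  have hφ : φ.comp (algebraMap L M) = φ₀ := ComplexEmbedding.lift_comp_algebraMap M φ₀
  obtain ⟨c, hc⟩ := ComplexEmbedding.exists_comp_symm_eq_of_comp_eq (k := ℚ) φ
    (ComplexEmbedding.conjugate φ) (Subsingleton.elim _ _)
  have hc' : ∀ x : M, φ (c.symm x) = (starRingEnd ℂ) (φ x) := fun x => DFunLike.congr_fun hc x
  have hcc : c.symm * c.symm = 1 := by
    ext x
    apply φ.injective
    rw [AlgEquiv.mul_apply, hc', hc', Complex.conj_conj]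
    rfl
  set τ : Gal(M/ℚ) := c.symm with hτ
  have hrel : (1 : Gal(M/ℚ)) * τ * 1⁻¹ = τ ^ (-1 : ℤ) := by
    rw [one_mul, inv_one, mul_one, zpow_neg_one]
    exact (eq_inv_of_mul_eq_one_left hcc)
  have hpg : IsPGroup 2 (Subgroup.closure {(1 : Gal(M/ℚ)), τ}) := by
    have h1 : IsPGroup 2 (zpowers τ) := isPGroup_zpowers (a := 1) (by rw [pow_one, pow_two, hcc])
    exact h1.to_le (closure_pair_le (one_mem _) (mem_zpowers _))
  have hres : res L M τ = 1 := by
    by_contra hne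
    have : Fact (Nat.Prime 2) := ⟨Nat.prime_two⟩
    have := (hπ 2 1 τ (-1) hrel hpg).2 2 hm hne
    norm_num at this
  have hfix : τ ∈ fixL L M := by
    rw [← res_ker]; exact hres
  rw [fixL, mem_fixingSubgroup_iff] at hfix
  ext x
  have h1 : τ (algebraMap L M x) = algebraMap L M x := hfix _ ⟨x, rfl⟩
  have h2 := hc' (algebraMap L M x)
  rw [h1] at h2
  have h3 : φ (algebraMap L M x) = φ₀ x := DFunLike.congr_fun hφ x
  rw [h3] at h2
  exact h2.symm

theorem exists_over {p q : ℕ} (hp : p.Prime) (hq : q.Prime) (hqp : q ≠ p) (P' : Ideal (𝓞 L))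
    [P'.IsPrime] (hpP' : (p : 𝓞 L) ∈ P') :
    ∃ P : Ideal (𝓞 M), P.IsPrime ∧ P' = P.under (𝓞 L) ∧ (p : 𝓞 M) ∈ P ∧ P ≠ ⊥ ∧
      (q : 𝓞 M) ∉ P ∧ Finite (𝓞 M ⧸ P) := by
  obtain ⟨⟨P, hP, hPP'⟩⟩ := (inferInstance : Nonempty (Ideal.primesOver P' (𝓞 M)))
  have hover : P' = P.under (𝓞 L) := hPP'.over
  have hpP : (p : 𝓞 M) ∈ P := by
    rw [hover] at hpP'
    have : algebraMap (𝓞 L) (𝓞 M) (p : 𝓞 L) ∈ P := hpP'
    simpa using this
  have hP0 : P ≠ ⊥ := by
    rintro rfl
    rw [Ideal.mem_bot] at hpP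
    exact hp.ne_zero (by exact_mod_cast hpP)
  have hqP : (q : 𝓞 M) ∉ P := by
    intro hqP
    have hcop : (p.Coprime q) := (Nat.coprime_primes hp hq).2 (Ne.symm hqp)
    have h1 : ((1 : ℕ) : 𝓞 M) ∈ P := by
      obtain ⟨a, b, hab⟩ : ∃ a b : ℤ, a * p + b * q = 1 := by
        have := Int.isCoprime_iff_gcd_eq_one.2 (by simpa using hcop : Int.gcd (p : ℤ) (q : ℤ) = 1)
        obtain ⟨a, b, h⟩ := this
        exact ⟨a, b, h⟩
      have h2 : ((1 : ℕ) : 𝓞 M) = (a : 𝓞 M) * p + (b : 𝓞 M) * q := by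
        have := congrArg (fun z : ℤ => (z : 𝓞 M)) hab
        push_cast at this ⊢
        exact this.symm
      rw [h2]
      exact Ideal.add_mem _ (Ideal.mul_mem_left _ _ hpP) (Ideal.mul_mem_left _ _ hqP)
    rw [Nat.cast_one] at h1
    exact hP.ne_top ((Ideal.eq_top_iff_one _).2 h1)
  have hfin : Finite (𝓞 M ⧸ P) := Ring.HasFiniteQuotients.finiteQuotient hP0
  exact ⟨P, hP, hover, hpP, hP0, hqP, hfin⟩

theorem cyclic_of_cover {m : ℕ} (hπ : CoverProp (res L M) m) {p q : ℕ} (hp : p.Prime)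
    [hq : Fact q.Prime] (hqp : q ≠ p) (hqm : q ∣ m) (P' : Ideal (𝓞 L)) [P'.IsPrime]
    (hpP' : (p : 𝓞 L) ∈ P') (R' : Subgroup Gal(L/ℚ)) (hR' : R' ≤ stabilizer Gal(L/ℚ) P')
    (hR'q : IsPGroup q R') : IsCyclic R' := by
  obtain ⟨P, hP, hover, hpP, hP0, hqP, hfin⟩ := exists_over L M hp hq.out hqp P' hpP'
  -- the preimage of `R'` in the decomposition group
  let R : Subgroup Gal(M/ℚ) := R'.comap (res L M) ⊓ stabilizer Gal(M/ℚ) P
  let f : R →* R' := ((res L M).comp R.subtype).codRestrict R' (fun x => x.2.1)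
  have hf : Function.Surjective f := by
    rintro ⟨s, hs⟩
    have hs' : s ∈ stabilizer Gal(L/ℚ) (P.under (𝓞 L)) := by
      rw [← hover]; exact hR' hs
    obtain ⟨g, hg, hgs⟩ := decomp_lift L M P s hs'
    have hgR : g ∈ R'.comap (res L M) := by rw [mem_comap, hgs]; exact hs
    exact ⟨⟨g, hgR, hg⟩, Subtype.ext hgs⟩
  obtain ⟨T⟩ := (inferInstance : Nonempty (Sylow q R))
  let T' : Sylow q R' := T.mapSurjective hf
  have hT' : (⊤ : Subgroup R') = T' :=
    T'.is_maximal' (Q := ⊤) (hR'q.to_subgroup ⊤) le_top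
  have hTs : IsPGroup q ((T : Subgroup R).map R.subtype) := T.2.map _
  have hTle : (T : Subgroup R).map R.subtype ≤ stabilizer Gal(M/ℚ) P := by
    rintro _ ⟨x, _, rfl⟩
    exact x.2.2
  have hcyc := decomp_cyclic hP0 hp hpP hqP hπ hqm _ hTle hTs
  have heq : ((T : Subgroup R).map R.subtype).map (res L M) = R' := by
    apply le_antisymm
    · rintro _ ⟨_, ⟨x, _, rfl⟩, rfl⟩
      exact x.2.1
    · intro y hy
      have h1 : (⟨y, hy⟩ : R') ∈ (⊤ : Subgroup R') := trivial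
      rw [hT'] at h1
      have h2 : (⟨y, hy⟩ : R') ∈ (T : Subgroup R).map f := h1
      obtain ⟨x, hx, hxy⟩ := h2
      exact ⟨x, ⟨x, hx, rfl⟩, congrArg Subtype.val hxy⟩
  rw [heq] at hcyc
  exact hcyc

theorem ramified_of_cover {m N : ℕ} (hπ : CoverProp (res L M) m) {p q : ℕ} (hp : p.Prime)
    [hq : Fact q.Prime] (hqp : q ≠ p) (hqm : q ^ N ∣ m) (P' : Ideal (𝓞 L)) [P'.IsPrime]
    (hpP' : (p : 𝓞 L) ∈ P') (hqe : q ∣ P'.ramificationIdx ℤ) : q ^ N ∣ p ^ (q - 1) - 1 := by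
  obtain ⟨P, hP, hover, hpP, hP0, hqP, hfin⟩ := exists_over L M hp hq.out hqp P' hpP'
  rw [hover] at hqe
  obtain ⟨Q⟩ := (inferInstance : Nonempty (Sylow q (P.inertia (stabilizer Gal(M/ℚ) P))))
  exact ramified_cond hP0 hp hpP hqP hπ hqm Q (exists_res_ne_one L M P hP0 hqe Q)

end tower

/-- The local conditions which come for free. -/
theorem igp_local
    (H : ∀ (G : Type) [Group G] [Finite G], ∃ (L : Type) (_ : Field L) (_ : Algebra ℚ L),
      IsGalois ℚ L ∧ Nonempty (G ≃* Gal(L/ℚ)))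
    (G : Type) [Group G] [Finite G] (N : ℕ) :
    ∃ (L : Type) (_ : Field L) (_ : NumberField L), IsGalois ℚ L ∧ Nonempty (G ≃* Gal(L/ℚ)) ∧
      IsTotallyReal L ∧
      ∀ p q : ℕ, p.Prime → q.Prime → q ≠ p → ∀ P : Ideal (𝓞 L), P.IsPrime → (p : 𝓞 L) ∈ P →
        (∀ R : Subgroup Gal(L/ℚ), R ≤ stabilizer Gal(L/ℚ) P → IsPGroup q R → IsCyclic R) ∧
        (q ∣ P.ramificationIdx ℤ → q ^ N ∣ p ^ (q - 1) - 1) := by
  set m := (2 * Nat.card G) ^ (N + 2) with hm
  have hm0 : m ≠ 0 := pow_ne_zero _ (mul_ne_zero two_ne_zero Nat.card_pos.ne')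
  obtain ⟨E, _, _, π, hπs, hπ⟩ := exists_cover G m hm0
  have hπ' : CoverProp π m := fun q _ σ τ l h1 h2 => hπ q σ τ l h1 h2
  obtain ⟨M, _, hAlg, hGal, ⟨e⟩⟩ := H E
  have hch : CharZero M := algebraRat.charZero M
  obtain rfl : hAlg = DivisionRing.toRatAlgebra := Subsingleton.elim _ _
  have hfinG : Finite Gal(M/ℚ) := Finite.of_equiv E e.toEquiv
  have hfd : FiniteDimensional ℚ M := IsGaloisGroup.finiteDimensional Gal(M/ℚ) ℚ M
  have hNF : NumberField M := { to_charZero := hch, to_finiteDimensional := hfd }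
  let ψ : Gal(M/ℚ) →* G := π.comp e.symm.toMonoidHom
  have hψs : Function.Surjective ψ := hπs.comp e.symm.surjective
  have hψ : CoverProp ψ m := hπ'.comp_right _
  obtain ⟨L, _, _, _, hLG, hL⟩ := realize_sub M ψ.ker
  obtain ⟨ι, hι⟩ := exists_iso ψ (res L M) hψs (res_surj L M) (by rw [res_ker, hL])
  have hres : CoverProp (res L M) m := by
    have h1 : res L M = ι.toMonoidHom.comp ψ := by
      ext1 x
      exact (hι x).symm
    rw [h1]
    exact hψ.comp_left _
  have hdiv : ∀ q : ℕ, q.Prime → q ∣ Nat.card G → ∀ k ≤ N + 2, q ^ k ∣ m := by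
    intro q _ hqG k hk
    exact (pow_dvd_pow q hk).trans (pow_dvd_pow_of_dvd (hqG.mul_left 2) _)
  refine ⟨L, inferInstance, inferInstance, hLG, ⟨ι⟩, ?_, ?_⟩
  · apply totallyReal_of_cover L M hres
    exact (pow_dvd_pow 2 (Nat.le_add_left 2 N)).trans
      (pow_dvd_pow_of_dvd (Dvd.intro _ rfl) _)
  · intro p q hp hq hqp P hP hpP
    have hqF : Fact q.Prime := ⟨hq⟩
    refine ⟨?_, ?_⟩
    · intro R hR hRq
      by_cases hqG : q ∣ Nat.card G
      · exact cyclic_of_cover L M hres hp hqp (by simpa using hdiv q hq hqG 1 (by omega)) P hpP R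
          hR hRq
      · have h1 : Nat.card R = 1 := by
          obtain ⟨k, hk⟩ := IsPGroup.iff_card.1 hRq
          rcases Nat.eq_zero_or_pos k with rfl | hk0
          · simpa using hk
          · exfalso
            apply hqG
            rw [Nat.card_congr ι.toEquiv]
            exact ((dvd_pow_self q hk0.ne').trans hk.symm.dvd).trans (Subgroup.card_subgroup_dvd_card R)
        have : Subsingleton R := (Nat.card_eq_one_iff_unique.1 h1).1
        exact isCyclic_of_subsingleton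
    · intro hqe
      have hqG : q ∣ Nat.card G := by
        have hmax : P.IsMaximal := by
          apply Ideal.IsPrime.isMaximal hP
          rintro rfl
          rw [Ideal.mem_bot] at hpP
          exact hp.ne_zero (by exact_mod_cast hpP)
        have hfinL : Finite (𝓞 L ⧸ P) := Ring.HasFiniteQuotients.finiteQuotient (by
          rintro rfl
          rw [Ideal.mem_bot] at hpP
          exact hp.ne_zero (by exact_mod_cast hpP))
        have hmaxZ : (P.under ℤ).IsMaximal := Ideal.IsMaximal.under ℤ P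
        have hfinZ : Finite (ℤ ⧸ P.under ℤ) :=
          Finite.of_injective _ (Ideal.algebraMap_quotient_injective (I := P) (R := ℤ))
        have c1 : Nat.card (P.inertia Gal(L/ℚ)) = P.ramificationIdx ℤ := by
          rw [Ideal.card_inertia_eq_ramificationIdxIn (P.under ℤ) P,
            Ideal.ramificationIdxIn_eq_ramificationIdx (P.under ℤ) P Gal(L/ℚ)]
        rw [Nat.card_congr ι.toEquiv]
        rw [← c1] at hqe
        exact hqe.trans (Subgroup.card_subgroup_dvd_card _)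
      exact ramified_of_cover L M hres hp hqp (hdiv q hq hqG N (by omega)) P hpP hqe

theorem ramIdx_dvd_card (L : Type) [Field L] [NumberField L] [IsGalois ℚ L] {p : ℕ}
    (hp : p.Prime) (P : Ideal (𝓞 L)) (hP : P.IsPrime) (hpP : (p : 𝓞 L) ∈ P) :
    P.ramificationIdx ℤ ∣ Nat.card Gal(L/ℚ) := by
  have hP0 : P ≠ ⊥ := by
    rintro rfl
    rw [Ideal.mem_bot] at hpP
    exact hp.ne_zero (by exact_mod_cast hpP)
  have hmax : P.IsMaximal := Ideal.IsPrime.isMaximal hP hP0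
  have hfinL : Finite (𝓞 L ⧸ P) := Ring.HasFiniteQuotients.finiteQuotient hP0
  have hmaxZ : (P.under ℤ).IsMaximal := Ideal.IsMaximal.under ℤ P
  have hfinZ : Finite (ℤ ⧸ P.under ℤ) :=
    Finite.of_injective _ (Ideal.algebraMap_quotient_injective (I := P) (R := ℤ))
  have c1 : Nat.card (P.inertia Gal(L/ℚ)) = P.ramificationIdx ℤ := by
    rw [Ideal.card_inertia_eq_ramificationIdxIn (P.under ℤ) P,
      Ideal.ramificationIdxIn_eq_ramificationIdx (P.under ℤ) P Gal(L/ℚ)]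
  rw [← c1]
  exact Subgroup.card_subgroup_dvd_card _

theorem igp_local_S
    (H : ∀ (G : Type) [Group G] [Finite G], ∃ (L : Type) (_ : Field L) (_ : Algebra ℚ L),
      IsGalois ℚ L ∧ Nonempty (G ≃* Gal(L/ℚ)))
    (G : Type) [Group G] [Finite G] (N : ℕ) (S : Finset ℕ) :
    ∃ (L : Type) (_ : Field L) (_ : NumberField L), IsGalois ℚ L ∧ Nonempty (G ≃* Gal(L/ℚ)) ∧
      IsTotallyReal L ∧
      ∀ p q : ℕ, p.Prime → q.Prime → q ≠ p → ∀ P : Ideal (𝓞 L), P.IsPrime → (p : 𝓞 L) ∈ P →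
        (∀ R : Subgroup Gal(L/ℚ), R ≤ stabilizer Gal(L/ℚ) P → IsPGroup q R → IsCyclic R) ∧
        (q ∣ P.ramificationIdx ℤ → p ∉ S ∧ q ^ N ∣ p ^ (q - 1) - 1) := by
  set B : ℕ := ∏ p ∈ S, (p + 1) with hB
  obtain ⟨L, hF, hNF, hG, ⟨e⟩, htr, hloc⟩ := igp_local H G (N + B ^ Nat.card G)
  refine ⟨L, hF, hNF, hG, ⟨e⟩, htr, ?_⟩
  intro p q hp hq hqp P hP hpP
  obtain ⟨h1, h2⟩ := hloc p q hp hq hqp P hP hpP
  refine ⟨h1, fun hqe => ?_⟩
  have h3 := h2 hqe
  refine ⟨fun hpS => ?_, (pow_dvd_pow q (Nat.le_add_right N _)).trans h3⟩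
  have hqG : q ∣ Nat.card G := by
    rw [Nat.card_congr e.toEquiv]
    exact hqe.trans (ramIdx_dvd_card L hp P hP hpP)
  have hq1 : q - 1 ≤ Nat.card G := (Nat.sub_le q 1).trans (Nat.le_of_dvd Nat.card_pos hqG)
  have hpB : p ≤ B := by
    have h4 : p + 1 ∣ B := Finset.dvd_prod_of_mem (fun p => p + 1) hpS
    have h5 : 0 < B := Finset.prod_pos fun x _ => Nat.succ_pos x
    have := Nat.le_of_dvd h5 h4
    omega
  have h6 : p ^ (q - 1) ≤ B ^ Nat.card G :=
    (Nat.pow_le_pow_left hpB _).trans (Nat.pow_le_pow_right (hp.pos.trans_le hpB) hq1)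
  have h7 : p ^ (q - 1) - 1 < q ^ (N + B ^ Nat.card G) := by
    have h8 : N + B ^ Nat.card G < q ^ (N + B ^ Nat.card G) := Nat.lt_pow_self hq.one_lt
    omega
  have h9 : 1 < p ^ (q - 1) := Nat.one_lt_pow (Nat.sub_pos_of_lt hq.one_lt).ne' hp.one_lt
  have h10 : p ^ (q - 1) - 1 = 0 := Nat.eq_zero_of_dvd_of_lt h3 h7
  omega

end Pool.Agent.Helper52IGP
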